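import Pool.Agent.SerialKdim.Main

/-!
For every serial ring `R`: if there is no superdecomposable pure-injective right `R`-module, then
the lattice of two-sided ideals of `R` has Krull dimension.
-/

namespace Pool.Agent.Results.MP_22d4f2_al.SerialKrull

open Pool.Agent.SerialKdim

universe u

/-- For every serial ring `R`, if there is no superdecomposable pure-injective (right) `R`-module,
then the lattice of two-sided ideals of `R` has Krull dimension. Right modules over `R` are
left modules over the opposite ring. -/
theorem result (R : Type u) [Ring R] (hR : SerialRing R)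
    (h : ¬ ∃ (N : Type u) (_ : AddCommGroup N) (_ : Module Rᵐᵒᵖ N),
      PureInjective Rᵐᵒᵖ N ∧ Superdecomposable Rᵐᵒᵖ N) :
    HasKrullDim (TwoSidedIdeal R) := by
  by_contra hk
  obtain ⟨g, hg⟩ := exists_rat_chain_of_not_hasKrullDim (TwoSidedIdeal R) hk
  exact h (exists_superdecomposable_of_chain (hasSerialData_of_serialRing hR).op
    (fun t => TwoSidedIdeal.opOrderIso (g t))
    (fun s t hst => TwoSidedIdeal.opOrderIso.strictMono (hg hst)))

end Pool.Agent.Results.MP_22d4f2_al.SerialKrull
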